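import Pool.Agent.L7h95.CD.Stm3

set_option autoImplicit false

/-!
# Project CD, third stage, part U3: consecutive points are adjacent
-/

namespace Pool.Agent.L7h82.CD

open Finset Function Pool.Agent.L7h95.CD

theorem one_of_single {ι : Type} [Fintype ι] [DecidableEq ι] (x : ι → ZMod 2) (c : ι) :
    hammingDist x (x + Pi.single c 1) = 1 := by
  unfold hammingDist
  rw [Finset.card_eq_one]
  refine ⟨c, ?_⟩
  ext i
  simp only [mem_filter, mem_univ, true_and, mem_singleton, Pi.add_apply]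
  by_cases h : i = c
  · subst h
    simp
  · simp [Pi.single_eq_of_ne h, h]

theorem pt_u {m s : ℕ} (u : Fin m → ZMod 2) (y : Fin s → ZMod 2) (x : Fin 2 → ZMod 2) (k : Fin m) :
    pt (u + Pi.single k 1) y x = pt u y x + Pi.single (Sum.inl k) 1 := by
  funext i
  rcases i with i | i | i
  · simp only [pt, Sum.elim_inl, Pi.add_apply]
    congr 1
    by_cases h : i = k
    · subst h; simp
    · rw [Pi.single_eq_of_ne h, Pi.single_eq_of_ne (fun h2 => h (Sum.inl.inj h2))]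
  · simp [pt]
  · simp [pt]

theorem pt_y {m s : ℕ} (u : Fin m → ZMod 2) (y : Fin s → ZMod 2) (x : Fin 2 → ZMod 2) (k : Fin s) :
    pt u (y + Pi.single k 1) x = pt u y x + Pi.single (Sum.inr (Sum.inl k)) 1 := by
  funext i
  rcases i with i | i | i
  · simp [pt]
  · simp only [pt, Sum.elim_inl, Sum.elim_inr, Pi.add_apply]
    congr 1
    by_cases h : i = k
    · subst h; simp
    · rw [Pi.single_eq_of_ne h,
        Pi.single_eq_of_ne (fun h2 => h (Sum.inl.inj (Sum.inr.inj h2)))]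
  · simp [pt]

theorem pt_x {m s : ℕ} (u : Fin m → ZMod 2) (y : Fin s → ZMod 2) (k : Fin 2) :
    pt u y (Pi.single k 1) = pt u y 0 + Pi.single (Sum.inr (Sum.inr k)) 1 := by
  funext i
  rcases i with i | i | i
  · simp [pt]
  · simp [pt]
  · simp only [pt, Sum.elim_inl, Sum.elim_inr, Pi.add_apply, Pi.zero_apply, zero_add]
    by_cases h : i = k
    · subst h; simp
    · rw [Pi.single_eq_of_ne h,
        Pi.single_eq_of_ne (fun h2 => h (Sum.inr.inj (Sum.inr.inj h2)))]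

theorem d_u {m s : ℕ} (u : Fin m → ZMod 2) (y : Fin s → ZMod 2) (x : Fin 2 → ZMod 2) (k : Fin m) :
    hammingDist (pt u y x) (pt (u + Pi.single k 1) y x) = 1 := by
  rw [pt_u]; exact one_of_single _ _

theorem d_y {m s : ℕ} (u : Fin m → ZMod 2) (y : Fin s → ZMod 2) (x : Fin 2 → ZMod 2) (k : Fin s) :
    hammingDist (pt u y x) (pt u (y + Pi.single k 1) x) = 1 := by
  rw [pt_y]; exact one_of_single _ _

theorem d_x {m s : ℕ} (u : Fin m → ZMod 2) (y : Fin s → ZMod 2) (q : ℕ) :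
    hammingDist (pt u y 0) (pt u y (lay q)) = 1 := by
  unfold lay
  split_ifs
  · rw [pt_x]; exact one_of_single _ _
  · rw [pt_x]; exact one_of_single _ _

section formulas

variable {m s : ℕ} (γ : ℕ → Fin m → ZMod 2) (z : ℕ → Fin s → ZMod 2) (a b : ℕ → Fin s) (q : ℕ)

theorem bp_lt {r : ℕ} (hr : r < 2 ^ m) : bp γ z a b q r =
    pt (if q % 2 = 0 then γ r else γ (2 ^ m - 1 - r)) (z q) 0 := by
  unfold bp
  rw [if_pos hr]

theorem bp_0 : bp γ z a b q (2 ^ m) =
    pt (if q % 2 = 0 then γ (2 ^ m - 1) else γ 0) (z q) (lay q) := by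
  unfold bp
  rw [if_neg (show ¬ 2 ^ m < 2 ^ m by omega), if_pos (show 2 ^ m = 2 ^ m from rfl)]

theorem bp_1 : bp γ z a b q (2 ^ m + 1) =
    pt (if q % 2 = 0 then γ (2 ^ m - 1) else γ 0) (z q + Pi.single (a q) 1) (lay q) := by
  unfold bp
  rw [if_neg (show ¬ 2 ^ m + 1 < 2 ^ m by omega), if_neg (show ¬ 2 ^ m + 1 = 2 ^ m by omega),
    if_pos (show 2 ^ m + 1 = 2 ^ m + 1 from rfl)]

theorem bp_2 : bp γ z a b q (2 ^ m + 2) =
    pt (if q % 2 = 0 then γ (2 ^ m - 1) else γ 0)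
      (z q + Pi.single (a q) 1 + Pi.single (b q) 1) (lay q) := by
  unfold bp
  rw [if_neg (show ¬ 2 ^ m + 2 < 2 ^ m by omega), if_neg (show ¬ 2 ^ m + 2 = 2 ^ m by omega),
    if_neg (show ¬ 2 ^ m + 2 = 2 ^ m + 1 by omega),
    if_pos (show 2 ^ m + 2 = 2 ^ m + 2 from rfl)]

theorem bp_3 : bp γ z a b q (2 ^ m + 3) =
    pt (if q % 2 = 0 then γ (2 ^ m - 1) else γ 0) (z (q + 1)) (lay q) := by
  unfold bp
  rw [if_neg (show ¬ 2 ^ m + 3 < 2 ^ m by omega), if_neg (show ¬ 2 ^ m + 3 = 2 ^ m by omega),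
    if_neg (show ¬ 2 ^ m + 3 = 2 ^ m + 1 by omega),
    if_neg (show ¬ 2 ^ m + 3 = 2 ^ m + 2 by omega)]

end formulas

theorem s_U3 : S_U3 := by
  intro m s N c0 γ z a b c hG hC
  have hM : 1 ≤ 2 ^ m := Nat.one_le_two_pow
  have p1 : ∀ q r, r + 1 < 2 ^ m → hammingDist (bp γ z a b q r) (bp γ z a b q (r + 1)) = 1 := by
    intro q r hr
    rw [bp_lt γ z a b q (by omega : r < 2 ^ m), bp_lt γ z a b q hr]
    by_cases hq : q % 2 = 0
    · rw [if_pos hq, if_pos hq, hG.step r hr]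
      exact d_u _ _ _ _
    · rw [if_neg hq, if_neg hq]
      have h1 := hG.step (2 ^ m - 1 - (r + 1)) (by omega)
      rw [show 2 ^ m - 1 - (r + 1) + 1 = 2 ^ m - 1 - r by omega] at h1
      rw [h1, hammingDist_comm]
      exact d_u _ _ _ _
  refine ⟨fun q r _ hr => p1 q r hr, ?_, ?_⟩
  · intro q r hq hr
    by_cases h0 : r + 1 < 2 ^ m
    · exact p1 q r h0
    by_cases h1 : r + 1 = 2 ^ m
    · have h3 : r = 2 ^ m - 1 := by omega
      have h2 : (if q % 2 = 0 then γ r else γ (2 ^ m - 1 - r)) =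
          (if q % 2 = 0 then γ (2 ^ m - 1) else γ 0) := by
        rw [h3, Nat.sub_self]
      rw [h1, bp_0, bp_lt γ z a b q (by omega : r < 2 ^ m), h2]
      exact d_x _ _ _
    · have h3 : r = 2 ^ m ∨ r = 2 ^ m + 1 ∨ r = 2 ^ m + 2 := by omega
      rcases h3 with rfl | rfl | rfl
      · rw [bp_0, bp_1]
        exact d_y _ _ _ _
      · rw [bp_1, show 2 ^ m + 1 + 1 = 2 ^ m + 2 from rfl, bp_2]
        exact d_y _ _ _ _
      · rw [bp_2, show 2 ^ m + 2 + 1 = 2 ^ m + 3 from rfl, bp_3, hC.step q hq]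
        exact d_y _ _ _ _
  · intro q hq
    rw [bp_3, bp_lt γ z a b (q + 1) (by omega : 0 < 2 ^ m), Nat.sub_zero]
    have h2 : (if (q + 1) % 2 = 0 then γ 0 else γ (2 ^ m - 1)) =
        (if q % 2 = 0 then γ (2 ^ m - 1) else γ 0) := by
      by_cases h : q % 2 = 0
      · rw [if_pos h, if_neg (by omega)]
      · rw [if_neg h, if_pos (by omega)]
    rw [h2, hammingDist_comm]
    exact d_x _ _ _

end Pool.Agent.L7h82.CD
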